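import Mathlib

set_option autoImplicit false
set_option linter.unusedSectionVars false

namespace Pool.Agent.H.MP_5c3535_an

open Filter Topology

theorem three (P Q : Fin 3 → Prop) (hP : ∀ i j, P i → P j → i = j) (hQ : ∀ i j, Q i → Q j → i = j) :
    ∃ i, ¬ P i ∧ ¬ Q i := by
  by_contra hc
  push Not at hc
  by_cases h0 : P 0
  · have h1 : Q 1 := hc 1 fun h => absurd (hP _ _ h0 h) (by decide)
    have h2 : Q 2 := hc 2 fun h => absurd (hP _ _ h0 h) (by decide)
    exact absurd (hQ _ _ h1 h2) (by decide)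
  · have h0' := hc 0 h0
    have h1 : P 1 := by_contra fun h => absurd (hQ _ _ h0' (hc 1 h)) (by decide)
    have h2 : P 2 := by_contra fun h => absurd (hQ _ _ h0' (hc 2 h)) (by decide)
    exact absurd (hP _ _ h1 h2) (by decide)

theorem colour {ι : Type*} (f : ι → ι) (R : ι → Fin 3 → Fin 3 → Prop)
    (h1 : ∀ x i j j', R x i j → R x i j' → j = j') (h2 : ∀ x i i' j, R x i j → R x i' j → i = i')
    (h3 : ∀ x, ∃ i, ¬ R x i i) : ∃ p : ι → Fin 3, ∀ x, ¬ R x (p x) (p (f x)) := by
  classical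
  have fin : ∀ S : Finset ι, ∃ p : ι → Fin 3, ∀ x ∈ S, f x ∈ S → ¬ R x (p x) (p (f x)) := by
    intro S
    induction S using Finset.strongInduction with
    | H S ih =>
      rcases S.eq_empty_or_nonempty with rfl | hS
      · exact ⟨fun _ => 0, by simp⟩
      obtain ⟨a, ha, hc⟩ := Finset.exists_card_fiber_lt_of_card_lt_mul (s := S) (t := S) (f := f)
        (n := 2) (by have := hS.card_pos; omega)
      have hc' : ∀ x ∈ S, ∀ y ∈ S, f x = a → f y = a → x = y := fun x hx y hy h h' =>
        Finset.card_le_one.1 (Nat.lt_succ_iff.1 hc) x (Finset.mem_filter.2 ⟨hx, h⟩) y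
          (Finset.mem_filter.2 ⟨hy, h'⟩)
      obtain ⟨p, hp⟩ := ih (S.erase a) (Finset.erase_ssubset ha)
      by_cases hfa : f a = a
      · obtain ⟨i, hi⟩ := h3 a
        refine ⟨Function.update p a i, fun x hx hfx => ?_⟩
        by_cases hxa : x = a
        · subst hxa
          simpa [hfa] using hi
        · have : f x ≠ a := fun h => hxa (hc' x hx a ha h hfa)
          rw [Function.update_of_ne hxa, Function.update_of_ne this]
          exact hp x (Finset.mem_erase.2 ⟨hxa, hx⟩) (Finset.mem_erase.2 ⟨this, hfx⟩)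
      · obtain ⟨i, hi1, hi2⟩ := three (fun i => R a i (p (f a)))
          (fun i => ∃ x ∈ S, f x = a ∧ R x (p x) i) (fun i j h h' => h2 a i j _ h h') (by
            rintro i j ⟨x, hx, h, r⟩ ⟨y, hy, h', r'⟩
            obtain rfl := hc' x hx y hy h h'
            exact h1 _ _ _ _ r r')
        refine ⟨Function.update p a i, fun x hx hfx => ?_⟩
        by_cases hxa : x = a
        · subst hxa
          rwa [Function.update_self, Function.update_of_ne hfa]
        · rw [Function.update_of_ne hxa]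
          by_cases h : f x = a
          · rw [h, Function.update_self]
            exact fun r => hi2 ⟨x, hx, h, r⟩
          · rw [Function.update_of_ne h]
            exact hp x (Finset.mem_erase.2 ⟨hxa, hx⟩) (Finset.mem_erase.2 ⟨h, hfx⟩)
  obtain ⟨p, -, hp⟩ := (isCompact_univ (X := ι → Fin 3)).inter_iInter_nonempty
    (fun x => {p | ¬ R x (p x) (p (f x))})
    (fun x => (isClosed_discrete {z : Fin 3 × Fin 3 | ¬ R x z.1 z.2}).preimage
      (f := fun p : ι → Fin 3 => (p x, p (f x))) (by fun_prop))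
    (fun u => by
      obtain ⟨p, hp⟩ := fin (u ∪ u.image f)
      exact ⟨p, trivial, Set.mem_iInter₂.2 fun x hx => hp x (Finset.mem_union_left _ hx)
        (Finset.mem_union_right _ (Finset.mem_image_of_mem _ hx))⟩)
  exact ⟨p, fun x => Set.mem_iInter.1 hp x⟩

/-- what we use about `M₂(ℂ)` -/
structure Pauli (M : Type) [CStarAlgebra M] where
  σ : Fin 3 → M
  τ : M →ₗ[ℂ] ℂ
  fin : FiniteDimensional ℂ M
  sa : ∀ i, star (σ i) = σ i
  sq : ∀ i, σ i * σ i = 1
  anti : ∀ i j, i ≠ j → σ i * σ j = -(σ j * σ i)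
  cyc : σ 0 * σ 1 = Complex.I • σ 2
  tr : ∀ a b, τ (a * b) = τ (b * a)
  tr1 : τ 1 = 2
  cen : ∀ e : M, e * e = e → (∀ x, e * x = x * e) → e = 0 ∨ e = 1

open scoped Matrix.Norms.L2Operator in
theorem pauli : Nonempty (Pauli (Matrix (Fin 2) (Fin 2) ℂ)) := by
  refine ⟨⟨![!![0, 1; 1, 0], !![0, -Complex.I; Complex.I, 0], !![1, 0; 0, -1]],
    Matrix.traceLinearMap _ ℂ ℂ, inferInstance, ?_, ?_, ?_, ?_, Matrix.trace_mul_comm, by simp, ?_⟩⟩
  · intro i
    ext a b
    fin_cases i <;> fin_cases a <;> fin_cases b <;> simp [Matrix.star_apply]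
  · intro i
    ext a b
    fin_cases i <;> fin_cases a <;> fin_cases b <;> simp [Matrix.mul_apply, Fin.sum_univ_two]
  · intro i j h
    ext a b
    fin_cases i <;> fin_cases j <;> first | exact absurd rfl h | skip
    all_goals fin_cases a <;> fin_cases b <;> simp [Matrix.mul_apply, Fin.sum_univ_two]
  · ext a b
    fin_cases a <;> fin_cases b <;> simp [Matrix.mul_apply, Fin.sum_univ_two]
  · intro e h1 h2
    have a1 := h2 !![0, 1; 0, 0]
    have a2 := h2 !![0, 0; 1, 0]
    have b1 := congrFun (congrFun a1 0) 0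
    have b2 := congrFun (congrFun a1 0) 1
    have b3 := congrFun (congrFun a2 0) 0
    have b4 := congrFun (congrFun h1 0) 0
    simp [Matrix.mul_apply, Fin.sum_univ_two] at b1 b2 b3 b4
    rw [b3, zero_mul, add_zero] at b4
    rcases mul_left_eq_self₀.1 b4 with h | h
    · right
      ext a b
      fin_cases a <;> fin_cases b <;> simp [← b1, b3, ← b2, h]
    · left
      ext a b
      fin_cases a <;> fin_cases b <;> simp [← b1, b3, ← b2, h]

namespace Pauli

variable {M : Type} [CStarAlgebra M] (P : Pauli M)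

/-- the three projections -/
noncomputable def q (i : Fin 3) : M := (1 / 2 : ℂ) • (1 + P.σ i)

theorem q_idem (i : Fin 3) : P.q i * P.q i = P.q i := by
  simp only [q, smul_mul_assoc, mul_smul_comm, add_mul, mul_add, one_mul, mul_one, P.sq]
  module

theorem q_sa (i : Fin 3) : star (P.q i) = P.q i := by
  simp [q, P.sa]

/-- unital anti-homomorphisms -/
def Good (θ : M →ₗ[ℂ] M) : Prop := θ 1 = 1 ∧ ∀ a b, θ (a * b) = θ b * θ a

theorem tr_σ (s : Fin 3 → M) (h1 : ∀ i, s i * s i = 1)
    (h2 : ∀ i j, i ≠ j → s i * s j = -(s j * s i)) (i : Fin 3) : P.τ (s i) = 0 := by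
  have h3 : P.τ (s (i + 1) * (s (i + 1) * s i)) = P.τ (s i) := by
    rw [← mul_assoc, h1, one_mul]
  have hne : i + 1 ≠ i := by fin_cases i <;> decide
  rw [P.tr, h2 _ _ hne, neg_mul, mul_assoc, h1, mul_one, map_neg] at h3
  linear_combination (-1 / 2 : ℂ) * h3

theorem tr_q (i : Fin 3) : P.τ (P.q i) = 1 := by
  simp [q, P.tr_σ P.σ P.sq P.anti, P.tr1]

theorem tr_θq {θ : M →ₗ[ℂ] M} (h : Good θ) (i : Fin 3) : P.τ (θ (P.q i)) = 1 := by
  have := P.tr_σ (fun i => θ (P.σ i)) (fun i => by rw [← h.2, P.sq, h.1])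
    (fun i j hij => by rw [← h.2, ← h.2, P.anti _ _ hij.symm, map_neg]) i
  simp [q, this, P.tr1, h.1]

include P in
theorem one_ne : (1 : M) ≠ 0 := fun h => by
  have := P.tr1
  rw [h, map_zero] at this
  norm_num at this

theorem d_sq {i j : Fin 3} (h : i ≠ j) :
    (P.q i - P.q j) * (P.q i - P.q j) = (1 / 2 : ℂ) • (1 : M) := by
  simp only [q, smul_mul_assoc, mul_smul_comm, add_mul, mul_add, sub_mul, mul_sub, one_mul,
    mul_one, P.sq, P.anti _ _ h]
  module

theorem q_inj {i j : Fin 3} (h : P.q i = P.q j) : i = j := by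
  by_contra hne
  have := P.d_sq hne
  rw [h, sub_self, zero_mul, eq_comm, smul_eq_zero] at this
  rcases this with h | h
  · norm_num at h
  · exact P.one_ne h

theorem one_le_norm {e : M} (h : e * e = e) (h1 : P.τ e = 1) : 1 ≤ ‖e‖ := by
  have h0 : e ≠ 0 := by
    rintro rfl
    simp at h1
  have h2 := norm_mul_le e e
  rw [h] at h2
  exact le_of_mul_le_mul_right (by linarith) (norm_pos_iff.2 h0)

variable {ι : Type*} {F : Filter ι} [F.NeBot] {θ : ι → M →ₗ[ℂ] M}

theorem lim1 {i j j' : Fin 3} (h : Tendsto (fun n => θ n (P.q i)) F (𝓝 (P.q j)))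
    (h' : Tendsto (fun n => θ n (P.q i)) F (𝓝 (P.q j'))) : j = j' :=
  P.q_inj (tendsto_nhds_unique h h')

theorem lim2 (hθ : ∀ n, Good (θ n)) {i i' j : Fin 3}
    (h : Tendsto (fun n => θ n (P.q i)) F (𝓝 (P.q j)))
    (h' : Tendsto (fun n => θ n (P.q i')) F (𝓝 (P.q j))) : i = i' := by
  by_contra hne
  have h1 := (h.sub h').mul (h.sub h')
  simp only [← map_sub, ← (hθ _).2, P.d_sq hne, map_smul, (hθ _).1, sub_self, mul_zero] at h1
  have h2 := tendsto_nhds_unique tendsto_const_nhds h1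
  rw [smul_eq_zero] at h2
  rcases h2 with h | h
  · norm_num at h
  · exact P.one_ne h

theorem lim3 (hθ : ∀ n, Good (θ n)) : ∃ i, ¬ Tendsto (fun n => θ n (P.q i)) F (𝓝 (P.q i)) := by
  by_contra hc
  push Not at hc
  have e : ∀ i, P.σ i = (2 : ℂ) • P.q i - 1 := fun i => by
    simp only [q]
    module
  have h1 : ∀ i, Tendsto (fun n => θ n (P.σ i)) F (𝓝 (P.σ i)) := fun i => by
    simp only [e i, map_sub, map_smul, (hθ _).1]
    exact ((hc i).const_smul _).sub_const _
  have h2 := (h1 1).mul (h1 0)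
  simp only [← (hθ _).2, P.cyc, map_smul] at h2
  have h3 := tendsto_nhds_unique h2 ((h1 2).const_smul Complex.I)
  rw [P.anti 1 0 (by decide), P.cyc] at h3
  have h4 : (2 * Complex.I) • P.σ 2 = 0 := by linear_combination (norm := module) -h3
  rw [smul_eq_zero] at h4
  rcases h4 with h | h
  · simp at h
  · have := P.sq 2
    rw [h, zero_mul] at this
    exact P.one_ne this.symm

end Pauli

end Pool.Agent.H.MP_5c3535_an
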