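import Pool.Agent.H.MP_5c3535_an.A

set_option autoImplicit false
set_option linter.unusedSectionVars false

namespace Pool.Agent.H.MP_5c3535_an

open Filter Topology
open scoped ENNReal Cardinal

/-- nodes of the binary tree -/
abbrev T := List Bool

/-- branches -/
abbrev Br := ℕ → Bool

/-- the node lies on the branch -/
def on (x : Br) (t : T) : Prop := ∀ i < t.length, t.getD i false = x i

/-- node of the branch on a given level -/
def nd (x : Br) (n : ℕ) : T := List.ofFn fun i : Fin n => x i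

theorem nd_len (x : Br) (n : ℕ) : (nd x n).length = n := by simp [nd]

theorem on_nd (x : Br) (n : ℕ) : on x (nd x n) := by
  intro i hi
  rw [nd_len] at hi
  simp [nd, hi]

theorem on_inf (x : Br) : {t | on x t}.Infinite :=
  Set.infinite_of_injective_forall_mem (f := nd x)
    (fun a b h => by simpa [nd_len] using congrArg List.length h) (on_nd x)

theorem sep2 {x y : Br} (h : x ≠ y) : ∀ᶠ N in atTop, ∀ t : T, N ≤ t.length → on x t → ¬ on y t := by
  obtain ⟨i, hi⟩ := Function.ne_iff.1 h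
  filter_upwards [eventually_gt_atTop i] with N hN t ht h1 h2
  exact hi ((h1 i (by omega)).symm.trans (h2 i (by omega)))

/-- the branches of `F` are disjoint from level `N` on -/
def Sep (F : Finset Br) (N : ℕ) : Prop :=
  ∀ x ∈ F, ∀ y ∈ F, x ≠ y → ∀ t : T, N ≤ t.length → on x t → ¬ on y t

theorem ev_sep (F : Finset Br) : ∀ᶠ N in atTop, Sep F N := by
  simp only [Sep, Finset.eventually_all]
  intro x _ y _
  by_cases h : x = y
  · simp [h]
  · exact (sep2 h).mono fun N hN _ => hN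

theorem card_Br : #Br = 𝔠 := by simp

theorem low_fin (N : ℕ) : {t : T | t.length < N}.Finite := List.finite_length_lt Bool N

variable {M : Type} [CStarAlgebra M]

/-- ambient algebra -/
noncomputable abbrev B (M : Type) [CStarAlgebra M] := lp (fun _ : T => M) ∞

variable (P : Pauli M) (p : Br → Fin 3)

/-- finite-dimensional subalgebras -/
noncomputable def S (F : Finset Br) (N : ℕ) : NonUnitalStarSubalgebra ℂ (B M) where
  carrier := {b | (∀ t : T, N ≤ t.length → (∀ x ∈ F, ¬ on x t) → b t = 0) ∧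
    ∀ x ∈ F, ∃ c : ℂ, ∀ t : T, N ≤ t.length → on x t → b t = c • P.q (p x)}
  add_mem' := by
    rintro a b ⟨a1, a2⟩ ⟨b1, b2⟩
    refine ⟨fun t h h' => by simp [a1 t h h', b1 t h h'], fun x hx => ?_⟩
    obtain ⟨c, hc⟩ := a2 x hx
    obtain ⟨d, hd⟩ := b2 x hx
    exact ⟨c + d, fun t h h' => by simp [hc t h h', hd t h h', add_smul]⟩
  zero_mem' := ⟨fun _ _ _ => rfl, fun _ _ => ⟨0, fun _ _ _ => by simp⟩⟩
  mul_mem' := by
    rintro a b ⟨a1, a2⟩ ⟨b1, b2⟩
    refine ⟨fun t h h' => by simp [lp.infty_coeFn_mul, a1 t h h'], fun x hx => ?_⟩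
    obtain ⟨c, hc⟩ := a2 x hx
    obtain ⟨d, hd⟩ := b2 x hx
    exact ⟨c * d, fun t h h' => by
      simp [lp.infty_coeFn_mul, hc t h h', hd t h h', P.q_idem, smul_smul, mul_comm]⟩
  smul_mem' := by
    rintro c a ⟨a1, a2⟩
    refine ⟨fun t h h' => by simp [a1 t h h'], fun x hx => ?_⟩
    obtain ⟨d, hd⟩ := a2 x hx
    exact ⟨c * d, fun t h h' => by simp [hd t h h', smul_smul]⟩
  star_mem' := by
    rintro a ⟨a1, a2⟩
    refine ⟨fun t h h' => by simp [a1 t h h'], fun x hx => ?_⟩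
    obtain ⟨d, hd⟩ := a2 x hx
    exact ⟨star d, fun t h h' => by simp [hd t h h', P.q_sa]⟩

theorem S_le {F F' : Finset Br} {N N' : ℕ} (h1 : F ⊆ F') (h2 : N ≤ N') (h3 : Sep F' N') :
    S P p F N ≤ S P p F' N' := by
  rintro b ⟨b1, b2⟩
  refine ⟨fun t h h' => b1 t (h2.trans h) fun x hx => h' x (h1 hx), fun x hx => ?_⟩
  by_cases hF : x ∈ F
  · obtain ⟨c, hc⟩ := b2 x hF
    exact ⟨c, fun t h h' => hc t (h2.trans h) h'⟩
  · refine ⟨0, fun t h h' => ?_⟩
    rw [zero_smul]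
    exact b1 t (h2.trans h) fun y hy => h3 x hx y (h1 hy) (by rintro rfl; exact hF hy) t h h'

theorem S_dir (F F' : Finset Br) (N N' : ℕ) :
    ∃ G K, S P p F N ≤ S P p G K ∧ S P p F' N' ≤ S P p G K := by
  classical
  obtain ⟨K, h1, h2, h3⟩ :=
    ((ev_sep (F ∪ F')).and ((eventually_ge_atTop N).and (eventually_ge_atTop N'))).exists
  exact ⟨F ∪ F', K, S_le P p Finset.subset_union_left h2 h1,
    S_le P p Finset.subset_union_right h3 h1⟩

/-- their union -/
noncomputable def U : NonUnitalStarSubalgebra ℂ (B M) where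
  carrier := {b | ∃ F N, b ∈ S P p F N}
  add_mem' := by
    rintro a b ⟨F, N, ha⟩ ⟨F', N', hb⟩
    obtain ⟨G, K, h1, h2⟩ := S_dir P p F F' N N'
    exact ⟨G, K, add_mem (h1 ha) (h2 hb)⟩
  zero_mem' := ⟨∅, 0, zero_mem _⟩
  mul_mem' := by
    rintro a b ⟨F, N, ha⟩ ⟨F', N', hb⟩
    obtain ⟨G, K, h1, h2⟩ := S_dir P p F F' N N'
    exact ⟨G, K, mul_mem (h1 ha) (h2 hb)⟩
  smul_mem' := by
    rintro c a ⟨F, N, ha⟩
    exact ⟨F, N, SMulMemClass.smul_mem c ha⟩
  star_mem' := by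
    rintro a ⟨F, N, ha⟩
    exact ⟨F, N, star_mem ha⟩

/-- the algebra -/
noncomputable def A : NonUnitalStarSubalgebra ℂ (B M) := (U P p).topologicalClosure

instance : IsClosed (A P p : Set (B M)) := isClosed_closure

theorem S_le_A (F : Finset Br) (N : ℕ) {b : B M} (h : b ∈ S P p F N) : b ∈ A P p :=
  subset_closure (s := (U P p : Set (B M))) ⟨F, N, h⟩

theorem approx {b : B M} (h : b ∈ A P p) {ε : ℝ} (hε : 0 < ε) :
    ∃ F N, ∃ s ∈ S P p F N, ∀ t, ‖b t - s t‖ < ε := by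
  obtain ⟨s, ⟨F, N, hs⟩, h1⟩ := Metric.mem_closure_iff.1
    (show b ∈ closure (U P p : Set (B M)) from h) ε hε
  refine ⟨F, N, s, hs, fun t => lt_of_le_of_lt ?_ h1⟩
  rw [dist_eq_norm]
  exact lp.norm_apply_le_norm ENNReal.top_ne_zero (b - s) t

theorem exists_branch {b : B M} (h : b ∈ A P p) {X : Set T} (hX : X.Infinite)
    (hb : ∀ t ∈ X, 1 ≤ ‖b t‖) : ∃ y, {t | t ∈ X ∧ on y t}.Infinite := by
  obtain ⟨F, N, s, hs, h1⟩ := approx P p h one_pos
  by_contra hc
  push Not at hc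
  refine hX (((low_fin N).union (F.finite_toSet.biUnion fun y _ => hc y)).subset fun t ht => ?_)
  by_contra h2
  simp only [Set.mem_union, Set.mem_ofPred_eq, Set.mem_iUnion, not_or, not_lt, not_exists,
    not_and, Finset.mem_coe] at h2
  have h3 := h1 t
  rw [hs.1 t h2.1 fun x hx => h2.2 x hx ht, sub_zero] at h3
  linarith [hb t ht]

theorem lim_branch {b : B M} (h : b ∈ A P p) (y : Br) :
    Tendsto (fun t => b t - P.τ (b t) • P.q (p y)) (cofinite ⊓ 𝓟 {t | on y t}) (𝓝 0) := by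
  classical
  have := P.fin
  let L : M →L[ℂ] M :=
    LinearMap.toContinuousLinearMap (LinearMap.id - P.τ.smulRight (P.q (p y)))
  have hL : ∀ a, L a = a - P.τ a • P.q (p y) := fun a => rfl
  simp only [← hL]
  rw [Metric.tendsto_nhds]
  intro ε hε
  obtain ⟨F, N, s, hs, h1⟩ := approx P p h (ε := ε / (‖L‖ + 1)) (by positivity)
  obtain ⟨G, K, h2, -⟩ := S_dir P p F {y} N 0
  obtain ⟨K, h3, h4⟩ := ((ev_sep (insert y F)).and (eventually_ge_atTop N)).exists
  obtain ⟨c, hc⟩ := (S_le P p (Finset.subset_insert y F) h4 h3 hs).2 y (Finset.mem_insert_self _ _)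
  rw [eventually_inf_principal]
  filter_upwards [(low_fin K).compl_mem_cofinite] with t ht hy
  have h5 : L (s t) = 0 := by
    rw [hc t (not_lt.1 ht) hy, hL]
    simp [P.tr_q]
  rw [dist_zero_right, ← sub_zero (L (b t)), ← h5, ← map_sub]
  calc _ ≤ ‖L‖ * ‖b t - s t‖ := L.le_opNorm _
    _ ≤ ‖L‖ * (ε / (‖L‖ + 1)) := by gcongr; exact (h1 t).le
    _ < ε := by
      rw [← mul_div_assoc, div_lt_iff₀ (by positivity)]
      linarith

/-- element supported at one node -/
noncomputable def sg (t : T) : M →ₗ[ℂ] A P p where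
  toFun a := ⟨lp.single ∞ t a, S_le_A P p ∅ (t.length + 1) ⟨fun s hs _ =>
    lp.single_apply_ne _ _ _ (by rintro rfl; omega), by simp⟩⟩
  map_add' a b := Subtype.ext (lp.single_add _ _ _ _)
  map_smul' c a := Subtype.ext (lp.single_smul _ _ _ _)

/-- evaluation -/
noncomputable def ev (t : T) : A P p →ₗ[ℂ] M where
  toFun a := a.1 t
  map_add' _ _ := rfl
  map_smul' _ _ := rfl

variable {P p}

theorem ev_mul (t : T) (a b : A P p) : ev P p t (a * b) = ev P p t a * ev P p t b := rfl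

theorem ev_ext {a b : A P p} (h : ∀ t, ev P p t a = ev P p t b) : a = b :=
  Subtype.ext (lp.ext (funext h))

theorem ev_sg (t : T) (a : M) : ev P p t (sg P p t a) = a :=
  lp.single_apply_self (E := fun _ : T => M) ∞ t a

theorem ev_sg' {s t : T} (h : s ≠ t) (a : M) : ev P p s (sg P p t a) = 0 :=
  lp.single_apply_ne (E := fun _ : T => M) ∞ t a h

theorem sg_mul (t : T) (a : A P p) : sg P p t 1 * a = sg P p t (ev P p t a) :=
  ev_ext fun s => by
    by_cases h : s = t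
    · subst h
      simp [ev_mul, ev_sg]
    · simp [ev_mul, ev_sg' h]

theorem mul_sg (t : T) (a : A P p) : a * sg P p t 1 = sg P p t (ev P p t a) :=
  ev_ext fun s => by
    by_cases h : s = t
    · subst h
      simp [ev_mul, ev_sg]
    · simp [ev_mul, ev_sg' h]

theorem cen_ev {w : A P p} (h1 : w * w = w) (h2 : ∀ a, w * a = a * w) (t : T) :
    ev P p t w = 0 ∨ ev P p t w = 1 :=
  P.cen _ (by rw [← ev_mul, h1]) fun x => by
    simpa [ev_mul, ev_sg] using congrArg (ev P p t) (h2 (sg P p t x))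

theorem z_ne (t : T) : sg P p t 1 ≠ 0 := fun h => P.one_ne (by
  simpa [ev_sg] using congrArg (ev P p t) h)

theorem perm (φ : A P p ≃ₗ[ℂ] A P p) (hφ : ∀ a b, φ (a * b) = φ b * φ a) (n : T) :
    ∃ m, φ (sg P p n 1) = sg P p m 1 := by
  have hψ : ∀ a b, φ.symm (a * b) = φ.symm b * φ.symm a := fun a b =>
    φ.injective (by simp [hφ])
  have key : ∀ (φ : A P p ≃ₗ[ℂ] A P p), (∀ a b, φ (a * b) = φ b * φ a) → ∀ n t,
      ev P p t (φ (sg P p n 1)) = 0 ∨ ev P p t (φ (sg P p n 1)) = 1 := by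
    intro φ hφ n
    refine cen_ev (by rw [← hφ, sg_mul, ev_sg]) fun a => ?_
    obtain ⟨a, rfl⟩ := φ.surjective a
    rw [← hφ, ← hφ, sg_mul, mul_sg]
  have h1 : ∃ m, ev P p m (φ (sg P p n 1)) ≠ 0 := by
    by_contra hc
    push Not at hc
    exact z_ne n (φ.injective (ev_ext fun t => by simp [hc]))
  obtain ⟨m, hm⟩ := h1
  have h2 := (key φ hφ n m).resolve_left hm
  have h3 : sg P p m 1 * φ (sg P p n 1) = sg P p m 1 := by rw [sg_mul, h2]
  have h4 := congrArg φ.symm h3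
  rw [hψ, φ.symm_apply_apply, sg_mul] at h4
  refine ⟨m, ?_⟩
  rcases key φ.symm hψ m n with h | h
  · rw [h, map_zero, eq_comm, φ.symm.map_eq_zero_iff] at h4
    exact absurd h4 (z_ne m)
  · rw [h] at h4
    rw [h4, φ.apply_symm_apply]

variable (P p) in
open Classical in
/-- the element attached to a branch -/
noncomputable def g (x : Br) : A P p :=
  ⟨⟨fun t => if on x t then P.q (p x) else 0, memℓp_infty ⟨‖P.q (p x)‖, by
    rintro _ ⟨t, rfl⟩
    dsimp only
    split_ifs <;> simp⟩⟩, S_le_A P p {x} 0 ⟨fun t _ h => if_neg (h x (by simp)), fun y hy => ⟨1,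
      fun t _ h => by
        obtain rfl := Finset.mem_singleton.1 hy
        rw [one_smul]
        exact if_pos h⟩⟩⟩

theorem ev_g {x : Br} {t : T} (h : on x t) : ev P p t (g P p x) = P.q (p x) := if_pos h

theorem ev_g' {x : Br} {t : T} (h : ¬ on x t) : ev P p t (g P p x) = 0 := if_neg h

theorem not_sep : ¬ TopologicalSpace.SeparableSpace (A P p) := by
  intro h
  have hc : Countable Br := by
    refine Pairwise.countable_of_isOpen_disjoint (s := fun x : Br => Metric.ball (g P p x) (1 / 2))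
      (fun x y hxy => Metric.ball_disjoint_ball ?_) (fun _ => Metric.isOpen_ball)
      fun _ => Metric.nonempty_ball.2 (by norm_num)
    obtain ⟨N, hN⟩ := (sep2 hxy).exists
    have h1 := hN _ (nd_len x N).ge (on_nd x N)
    have h2 : ‖ev P p (nd x N) (g P p x - g P p y)‖ ≤ ‖g P p x - g P p y‖ :=
      lp.norm_apply_le_norm ENNReal.top_ne_zero (g P p x - g P p y).1 _
    rw [map_sub, ev_g (on_nd x N), ev_g' h1, sub_zero] at h2
    rw [dist_eq_norm]
    linarith [P.one_le_norm (P.q_idem (p x)) (P.tr_q _)]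
  have h2 := Cardinal.mk_le_aleph0 (α := Br)
  rw [card_Br] at h2
  exact absurd h2 (not_le.2 Cardinal.aleph0_lt_continuum)

theorem fin_of {V X : Type} [AddCommGroup V] [Module ℂ V] [AddCommGroup X] [Module ℂ X]
    [FiniteDimensional ℂ X] (W : Submodule ℂ V) (f : V →ₗ[ℂ] X) (h : ∀ a ∈ W, f a = 0 → a = 0) :
    FiniteDimensional ℂ W :=
  FiniteDimensional.of_injective (f.domRestrict W)
    ((injective_iff_map_eq_zero _).2 fun a ha => Subtype.ext (h a a.2 ha))

theorem af : ∃ 𝒮 : Set (NonUnitalStarSubalgebra ℂ (A P p)), DirectedOn (· ≤ ·) 𝒮 ∧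
    (∀ s ∈ 𝒮, FiniteDimensional ℂ (Submodule.span ℂ (s : Set (A P p)))) ∧
    Dense (⋃ s ∈ 𝒮, (s : Set (A P p))) := by
  refine ⟨{s | ∃ F N, s = (S P p F N).comap (NonUnitalStarSubalgebraClass.subtype (A P p))},
    ?_, ?_, ?_⟩
  · rintro _ ⟨F, N, rfl⟩ _ ⟨F', N', rfl⟩
    obtain ⟨G, K, h1, h2⟩ := S_dir P p F F' N N'
    exact ⟨_, ⟨G, K, rfl⟩, fun a ha => h1 ha, fun a ha => h2 ha⟩
  · rintro s ⟨F, N, hs⟩
    have e : Submodule.span ℂ (s : Set (A P p)) = s.toNonUnitalSubalgebra.toSubmodule :=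
      Submodule.span_eq s.toNonUnitalSubalgebra.toSubmodule
    rw [e]
    have := P.fin
    have := (low_fin N).to_subtype
    refine fin_of (X := ({t : T | t.length < N} → M) × (F → M)) _
      (LinearMap.prod (LinearMap.pi fun t => ev P p t.1)
        (LinearMap.pi fun x => ev P p (nd x.1 N))) fun a has ha => ?_
    have h1 : ∀ t : T, t.length < N → ev P p t a = 0 := fun t ht =>
      congrFun (congrArg Prod.fst ha) ⟨t, ht⟩
    have h2 : ∀ x ∈ F, ev P p (nd x N) a = 0 := fun x hx =>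
      congrFun (congrArg Prod.snd ha) ⟨x, hx⟩
    have h3 : a.1 ∈ S P p F N := by
      subst hs
      exact has
    refine ev_ext fun t => ?_
    by_cases ht : t.length < N
    · exact h1 t ht
    by_cases hx : ∃ x ∈ F, on x t
    · obtain ⟨x, hx, h⟩ := hx
      obtain ⟨c, hc⟩ := h3.2 x hx
      exact (hc t (not_lt.1 ht) h).trans
        ((hc _ (nd_len x N).ge (on_nd x N)).symm.trans (h2 x hx))
    · push Not at hx
      exact h3.1 t (not_lt.1 ht) hx
  · rw [Subtype.dense_iff]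
    refine closure_mono (t := _) ?_
    rintro b ⟨F, N, hb⟩
    exact ⟨⟨b, S_le_A P p F N hb⟩, Set.mem_iUnion₂.2 ⟨_, ⟨F, N, rfl⟩, hb⟩, rfl⟩

theorem card_le (V : Type) [AddCommGroup V] [Module ℂ V] [FiniteDimensional ℂ V] : #V ≤ 𝔠 := by
  rw [Cardinal.mk_congr (Module.finBasis ℂ V).equivFun.toEquiv]
  simp only [Cardinal.mk_pi, Cardinal.prod_const, Cardinal.mk_fintype, Fintype.card_fin,
    Cardinal.lift_natCast, Cardinal.mk_complex, Cardinal.lift_continuum, Cardinal.power_natCast]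
  exact Cardinal.power_nat_le Cardinal.aleph0_le_continuum

variable (P) in
theorem exists_p : ∃ p, ∀ φ : A P p ≃ₗ[ℂ] A P p, ¬ ∀ a b, φ (a * b) = φ b * φ a := by
  classical
  have := P.fin
  have hcard : #((T → T) × (T → M →ₗ[ℂ] M)) ≤ #Br := by
    have h2 : #(T → T) ≤ 𝔠 := by simp
    have h3 : #(T → M →ₗ[ℂ] M) ≤ 𝔠 := by
      rw [← Cardinal.power_def, Cardinal.mk_eq_aleph0 T]
      exact (Cardinal.power_le_power_right (card_le _)).trans_eq
        Cardinal.continuum_power_aleph0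
    rw [card_Br, Cardinal.mk_prod, Cardinal.lift_id, Cardinal.lift_id]
    exact (mul_le_mul' h2 h3).trans_eq Cardinal.continuum_mul_self
  obtain ⟨κ⟩ := Cardinal.le_def _ _ |>.1 hcard
  let ρ := Function.invFun κ
  have hρ : Function.Surjective ρ := Function.invFun_surjective κ.injective
  let X : Br → Br → Set T := fun x y => {n | on x n ∧ on y ((ρ x).1 n)}
  let f : Br → Br := fun x => if h : ∃ y, (X x y).Infinite then h.choose else x
  let R : Br → Br → Fin 3 → Fin 3 → Prop := fun x y i j => (∀ n, Pauli.Good ((ρ x).2 n)) ∧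
    (X x y).Infinite ∧ Tendsto (fun n => (ρ x).2 n (P.q i)) (cofinite ⊓ 𝓟 (X x y)) (𝓝 (P.q j))
  obtain ⟨p, hp⟩ := colour f (fun x => R x (f x))
    (by
      rintro x i j j' ⟨-, h1, h2⟩ ⟨-, -, h3⟩
      have := h1.cofinite_inf_principal_neBot
      exact P.lim1 h2 h3)
    (by
      rintro x i j j' ⟨h0, h1, h2⟩ ⟨-, -, h3⟩
      have := h1.cofinite_inf_principal_neBot
      exact P.lim2 h0 h2 h3)
    (by
      intro x
      by_contra hc
      push Not at hc
      have := (hc 0).2.1.cofinite_inf_principal_neBot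
      obtain ⟨i, hi⟩ := P.lim3 (F := cofinite ⊓ 𝓟 (X x (f x))) (hc 0).1
      exact hi (hc i).2.2)
  refine ⟨p, fun φ hφ => ?_⟩
  choose π hπ using perm φ hφ
  have hπi : Function.Injective π := by
    intro n m h
    have h1 := φ.injective ((hπ n).trans (h ▸ (hπ m).symm))
    by_contra hne
    have h2 := congrArg (ev P p n) h1
    rw [ev_sg, ev_sg' hne] at h2
    exact P.one_ne h2
  let θ : T → M →ₗ[ℂ] M := fun n => ev P p (π n) ∘ₗ φ.toLinearMap ∘ₗ sg P p n
  have hθ : ∀ n a, ev P p (π n) (φ a) = θ n (ev P p n a) := by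
    intro n a
    change _ = ev P p (π n) (φ (sg P p n (ev P p n a)))
    rw [← sg_mul, hφ, hπ, ev_mul, ev_sg, mul_one]
  have hg : ∀ n, Pauli.Good (θ n) := by
    refine fun n => ⟨?_, fun a b => ?_⟩
    · change ev P p (π n) (φ (sg P p n 1)) = 1
      rw [hπ, ev_sg]
    · have := hθ n (sg P p n a * sg P p n b)
      rw [hφ, ev_mul, ev_mul, ev_sg, ev_sg] at this
      exact this.symm
  obtain ⟨x, hx⟩ := hρ (π, θ)
  have hb : ∀ n, on x n → (φ (g P p x)).1 (π n) = θ n (P.q (p x)) := fun n hn => by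
    rw [← ev_g (P := P) (p := p) hn]
    exact hθ n _
  have h1 : ∃ y, (X x y).Infinite := by
    obtain ⟨y, hy⟩ := exists_branch P p (φ (g P p x)).2 ((on_inf x).image hπi.injOn) (by
      rintro _ ⟨n, hn, rfl⟩
      rw [hb n hn]
      exact P.one_le_norm (by rw [← (hg n).2, P.q_idem]) (P.tr_θq (hg n) _))
    refine ⟨y, Set.Infinite.of_image π (hy.mono ?_)⟩
    rintro _ ⟨⟨n, hn, rfl⟩, h⟩
    exact ⟨n, ⟨hn, by simpa [hx] using h⟩, rfl⟩
  have h2 : (X x (f x)).Infinite := by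
    simp only [f, dif_pos h1]
    exact h1.choose_spec
  refine hp x ⟨by simpa [hx] using hg, h2, ?_⟩
  have h3 : Tendsto π (cofinite ⊓ 𝓟 (X x (f x))) (cofinite ⊓ 𝓟 {t | on (f x) t}) :=
    hπi.tendsto_cofinite.inf (tendsto_principal_principal.2 fun n hn => by
      simpa [hx] using hn.2)
  have h4 := ((lim_branch P p (φ (g P p x)).2 (f x)).comp h3).add_const (P.q (p (f x)))
  rw [zero_add] at h4
  refine h4.congr' (eventually_inf_principal.2 (Eventually.of_forall fun n hn => ?_))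
  simp [hb n hn.1, P.tr_θq (hg n), hx]

open scoped Matrix.Norms.L2Operator in
theorem main : ∃ (A : Type) (_ : NonUnitalCStarAlgebra A),
    ¬ TopologicalSpace.SeparableSpace A ∧
    (∃ S : Set (NonUnitalStarSubalgebra ℂ A), DirectedOn (· ≤ ·) S ∧
      (∀ s ∈ S, FiniteDimensional ℂ (Submodule.span ℂ (s : Set A))) ∧
      Dense (⋃ s ∈ S, (s : Set A))) ∧
    IsEmpty (A ≃⋆ₐ[ℂ] Aᵐᵒᵖ) := by
  obtain ⟨P⟩ := pauli
  obtain ⟨p, hp⟩ := exists_p P
  refine ⟨A P p, inferInstance, not_sep, af, ⟨fun Φ => ?_⟩⟩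
  refine hp ((⟨⟨⟨Φ, map_add Φ⟩, map_smul Φ⟩, Φ.symm, Φ.symm_apply_apply, Φ.apply_symm_apply⟩ : _ ≃ₗ[ℂ] _).trans (MulOpposite.opLinearEquiv ℂ).symm)
    fun a b => ?_
  change MulOpposite.unop (Φ (a * b)) = MulOpposite.unop (Φ b) * MulOpposite.unop (Φ a)
  rw [map_mul, MulOpposite.unop_mul]

end Pool.Agent.H.MP_5c3535_an
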